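import Mathlib

/-!
# Height functions with `d` extrema on a `2 × n` grid

The sub-leading pole coefficient `c₂(m)` of the generating function of height functions with `d`
extrema is not always `-4 (d - 4)`: for `d = 6` and `m = 2` it is `0`.
-/

namespace Pool.Agent.Results.MP_562107_co.NarrowGrid

open Finset

/-- Two cells of the `m × n` grid are adjacent if they differ by `1` in exactly one coordinate. -/
def Adj {m n : ℕ} (u v : Fin m × Fin n) : Prop :=
  (u.1 = v.1 ∧ (u.2.val + 1 = v.2.val ∨ v.2.val + 1 = u.2.val)) ∨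
  (u.2 = v.2 ∧ (u.1.val + 1 = v.1.val ∨ v.1.val + 1 = u.1.val))

/-- `h` is a height function: adjacent values differ by `1` and the first cell has value `0`. -/
def IsHeight {m n : ℕ} (h : Fin m × Fin n → ℤ) : Prop :=
  (∀ u v, Adj u v → |h u - h v| = 1) ∧ ∀ u, u.1.val = 0 → u.2.val = 0 → h u = 0

/-- `v` is a strict local minimum of `h`. -/
def IsMin {m n : ℕ} (h : Fin m × Fin n → ℤ) (v : Fin m × Fin n) : Prop :=
  ∀ u, Adj u v → h u = h v + 1

/-- `v` is a strict local maximum of `h`. -/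
def IsMax {m n : ℕ} (h : Fin m × Fin n → ℤ) (v : Fin m × Fin n) : Prop :=
  ∀ u, Adj u v → h u = h v - 1

/-- The number of extrema of `h`. -/
noncomputable def numExt {m n : ℕ} (h : Fin m × Fin n → ℤ) : ℕ :=
  Nat.card {v // IsMin h v ∨ IsMax h v}

/-- `E_d(m,n)`: the number of height functions on the `m × n` grid with exactly `d` extrema. -/
noncomputable def E (d m n : ℕ) : ℕ :=
  Nat.card {h : Fin m × Fin n → ℤ // IsHeight h ∧ numExt h = d}

/-- `F_{d,m}(z) = ∑_{n ≥ 2} E_d(m,n) zⁿ`. -/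
noncomputable def F (d m : ℕ) : PowerSeries ℚ :=
  PowerSeries.mk fun n => if 2 ≤ n then (E d m n : ℚ) else 0

/-- `F_{d,m}(z) = ∑_{k=1}^{d-1} c_k / (1-z)^k + Q(z)` with a polynomial `Q` (multiplied by
`(1-z)^(d-1)`): the numbers `c_k` are the coefficients of the principal part of `F_{d,m}`, whose
only pole is at `z = 1` and has order at most `d - 1`. -/
def IsPrincipalPart (d m : ℕ) (c : ℕ → ℚ) (Q : Polynomial ℚ) : Prop :=
  F d m * (1 - PowerSeries.X) ^ (d - 1) =
    ((∑ k ∈ Icc 1 (d - 1), Polynomial.C (c k) * (1 - Polynomial.X) ^ (d - 1 - k) +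
      (1 - Polynomial.X) ^ (d - 1) * Q : Polynomial ℚ) : PowerSeries ℚ)

/-! ### Words -/

/-- Transitions between consecutive columns: both heights go up, both go down, or the lower one
goes up and the upper one goes down (flip). -/
inductive L | U | D | F
deriving DecidableEq, Fintype

open L

/-- Number of extrema in a column with given transitions before and after it. -/
def cm : Option L → Option L → ℕ
  | none, none => 2
  | none, some U => 1
  | none, some D => 1
  | none, some L.F => 2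
  | some U, none => 1
  | some D, none => 1
  | some L.F, none => 2
  | some U, some U => 0
  | some U, some D => 1
  | some U, some L.F => 1
  | some D, some U => 1
  | some D, some D => 0
  | some D, some L.F => 1
  | some L.F, some U => 1
  | some L.F, some D => 1
  | some L.F, some L.F => 2

/-- total number of extrema along a word -/
def st : (N : ℕ) → Option L → (Fin N → L) → ℕ
  | 0, x, _ => cm x none
  | N + 1, x, w => cm x (some (w 0)) + st N (some (w 0)) (fun i => w i.succ)

/-- number of words with given number of extrema -/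
def cnt (N : ℕ) (x : Option L) (k : ℕ) : ℕ := (univ.filter fun w : Fin N → L => st N x w = k).card

lemma cnt_zero (x : Option L) (k : ℕ) : cnt 0 x k = if cm x none = k then 1 else 0 := by
  unfold cnt
  split_ifs with h
  · rw [Finset.filter_true_of_mem]
    · simp
    · intro w _; simpa [st] using h
  · rw [Finset.filter_false_of_mem]
    · simp
    · intro w _; simpa [st] using h

lemma cnt_succ (N : ℕ) (x : Option L) (k : ℕ) :
    cnt (N + 1) x k = ∑ y : L, if cm x (some y) ≤ k then cnt N (some y) (k - cm x (some y))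
      else 0 := by
  unfold cnt
  have h1 : ∀ M : ℕ, ∀ p : (Fin M → L) → Prop, ∀ [DecidablePred p],
      (univ.filter p).card = ∑ w, if p w then 1 else 0 := by
    intro M p _; rw [Finset.card_filter]
  rw [h1]
  rw [← (Fin.consEquiv (fun _ : Fin (N + 1) => L)).sum_comp, Fintype.sum_prod_type]
  apply Finset.sum_congr rfl
  intro y _
  split_ifs with h
  · rw [h1]
    apply Finset.sum_congr rfl
    intro w _
    have : st (N + 1) x (Fin.consEquiv (fun _ : Fin (N + 1) => L) (y, w)) =
        cm x (some y) + st N (some y) w := by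
      simp [st, Fin.consEquiv]
    rw [this]
    by_cases h' : cm x (some y) + st N (some y) w = k
    · rw [if_pos h', if_pos (by omega)]
    · rw [if_neg h', if_neg (by omega)]
  · apply Finset.sum_eq_zero
    intro w _
    have : st (N + 1) x (Fin.consEquiv (fun _ : Fin (N + 1) => L) (y, w)) =
        cm x (some y) + st N (some y) w := by
      simp [st, Fin.consEquiv]
    rw [this, if_neg (by omega)]

lemma univ_L : (univ : Finset L) = {U, D, L.F} := by decide

lemma cnt_D (N : ℕ) : ∀ k, cnt N (some D) k = cnt N (some U) k := by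
  intro k
  cases N with
  | zero => simp [cnt_zero, cm]
  | succ N =>
    rw [cnt_succ, cnt_succ, univ_L]
    have hD : ∀ N k, cnt N (some D) k = cnt N (some U) k := by
      intro N
      induction N with
      | zero => intro k; simp [cnt_zero, cm]
      | succ N ih =>
        intro k
        rw [cnt_succ, cnt_succ, univ_L]
        simp [cm, ih]
        ring
    simp [cm, hD]
    ring

lemma cnt_none (N : ℕ) (k : ℕ) : cnt N none k = cnt N (some L.F) k := by
  cases N with
  | zero => simp [cnt_zero, cm]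
  | succ N =>
    rw [cnt_succ, cnt_succ, univ_L]
    simp [cm]

lemma U_zero (N : ℕ) : cnt (N + 1) (some U) 0 = cnt N (some U) 0 := by
  rw [cnt_succ, univ_L]; simp [cm]

lemma U_succ (N k : ℕ) : cnt (N + 1) (some U) (k + 1) =
    cnt N (some U) (k + 1) + cnt N (some U) k + cnt N (some L.F) k := by
  rw [cnt_succ, univ_L]; simp [cm, cnt_D]; ring

lemma F_zero (N : ℕ) : cnt (N + 1) (some L.F) 0 = 0 := by
  rw [cnt_succ, univ_L]; simp [cm]

lemma F_one (N : ℕ) : cnt (N + 1) (some L.F) 1 = 2 * cnt N (some U) 0 := by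
  rw [cnt_succ, univ_L]; simp [cm, cnt_D]; ring

lemma F_succ (N k : ℕ) : cnt (N + 1) (some L.F) (k + 2) =
    2 * cnt N (some U) (k + 1) + cnt N (some L.F) k := by
  rw [cnt_succ, univ_L]; simp [cm, cnt_D]; ring


lemma closed (M : ℕ) :
    (cnt (M + 3) (some U) 0 : ℚ) = 0 ∧ (cnt (M + 3) (some L.F) 0 : ℚ) = 0 ∧
    (cnt (M + 3) (some U) 1 : ℚ) = 1 ∧ (cnt (M + 3) (some L.F) 1 : ℚ) = 0 ∧
    (cnt (M + 3) (some U) 2 : ℚ) = 3 + M ∧ (cnt (M + 3) (some L.F) 2 : ℚ) = 2 ∧
    (cnt (M + 3) (some U) 3 : ℚ) = 8 + 9 / 2 * M + 1 / 2 * M ^ 2 ∧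
    (cnt (M + 3) (some L.F) 3 : ℚ) = 4 + 2 * M ∧
    (cnt (M + 3) (some U) 4 : ℚ) = 7 + 53 / 6 * M + 3 * M ^ 2 + 1 / 6 * M ^ 3 ∧
    (cnt (M + 3) (some L.F) 4 : ℚ) = 10 + 7 * M + M ^ 2 ∧
    (cnt (M + 3) (some U) 5 : ℚ) = 6 + 39 / 4 * M + 143 / 24 * M ^ 2 + 5 / 4 * M ^ 3 +
      1 / 24 * M ^ 4 ∧
    (cnt (M + 3) (some L.F) 6 : ℚ) = 6 + 47 / 6 * M + 71 / 12 * M ^ 2 + 13 / 6 * M ^ 3 +
      1 / 12 * M ^ 4 := by
  induction M with
  | zero =>
    simp only [U_zero, U_succ, F_zero, F_one, F_succ, cnt_zero, cm]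
    norm_num
  | succ M ih =>
    obtain ⟨u0, f0, u1, f1, u2, f2, u3, f3, u4, f4, u5, f6⟩ := ih
    have e : M + 1 + 3 = (M + 3) + 1 := by ring
    rw [e]
    refine ⟨?_, ?_, ?_, ?_, ?_, ?_, ?_, ?_, ?_, ?_, ?_, ?_⟩
    · rw [U_zero]; exact u0
    · rw [F_zero]; simp
    · rw [U_succ]; push_cast; rw [u1, u0, f0]; ring
    · rw [F_one]; push_cast; rw [u0]; ring
    · rw [U_succ]; push_cast; rw [u2, u1, f1]; ring
    · rw [F_succ]; push_cast; rw [u1, f0]; ring
    · rw [U_succ]; push_cast; rw [u3, u2, f2]; ring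
    · rw [F_succ]; push_cast; rw [u2, f1]; ring
    · rw [U_succ]; push_cast; rw [u4, u3, f3]; ring
    · rw [F_succ]; push_cast; rw [u3, f2]; ring
    · rw [U_succ]; push_cast; rw [u5, u4, f4]; ring
    · rw [F_succ]; push_cast; rw [u5, f4]; ring

/-! ### Encoding height functions -/

section
variable {N : ℕ}

/-- the word extended by `U` -/
def wx (w : Fin N → L) (i : ℕ) : L := if h : i < N then w ⟨i, h⟩ else U

/-- difference of the two heights in column `i` -/
def sg (s : Bool) (w : Fin N → L) : ℕ → ℤ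
  | 0 => if s then 1 else -1
  | i + 1 => match wx w i with
    | U => sg s w i
    | D => sg s w i
    | L.F => - sg s w i

/-- height in row `0` -/
def ht (s : Bool) (w : Fin N → L) : ℕ → ℤ
  | 0 => 0
  | i + 1 => match wx w i with
    | U => ht s w i + 1
    | D => ht s w i - 1
    | L.F => ht s w i + sg s w i

/-- the height function of a word -/
def dec (s : Bool) (w : Fin N → L) (p : Fin 2 × Fin (N + 1)) : ℤ :=
  ht s w p.2.val + (if p.1 = 0 then 0 else sg s w p.2.val)

/-- letter from two increments -/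
def lt (a b : ℤ) : L := if a = b then (if a = 1 then U else D) else L.F

/-- word of a height function -/
def encW (h : Fin 2 × Fin (N + 1) → ℤ) (i : Fin N) : L :=
  lt (h (0, i.succ) - h (0, i.castSucc)) (h (1, i.succ) - h (1, i.castSucc))

/-- first sign of a height function -/
def encS (h : Fin 2 × Fin (N + 1) → ℤ) : Bool := decide (h (1, 0) = 1)

lemma sg_pm (s : Bool) (w : Fin N → L) (i : ℕ) : sg s w i = 1 ∨ sg s w i = -1 := by
  induction i with
  | zero => cases s <;> simp [sg]
  | succ i ih =>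
    simp only [sg]
    split
    · exact ih
    · exact ih
    · omega

lemma isHeight_dec (s : Bool) (w : Fin N → L) : IsHeight (dec s w) := by
  constructor
  · have row : ∀ (r : Fin 2) (i j : Fin (N + 1)), i.val + 1 = j.val →
        |dec s w (r, j) - dec s w (r, i)| = 1 := by
      intro r i j hij
      have hs := sg_pm s w i.val
      simp only [dec, ← hij, ht, sg]
      rcases hw : wx w i.val with _ | _ | _ <;> fin_cases r <;> simp <;>
        (try (rw [abs_eq (by norm_num)]; omega))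
    rintro ⟨r, i⟩ ⟨r', j⟩ h
    rcases h with ⟨h1, h2⟩ | ⟨h1, h2⟩
    · simp only at h1 h2
      subst h1
      rcases h2 with h2 | h2
      · rw [abs_sub_comm]; exact row r i j h2
      · exact row r j i h2
    · simp only at h1 h2
      subst h1
      have hs := sg_pm s w i.val
      simp only [dec]
      fin_cases r <;> fin_cases r' <;> simp at h2 ⊢ <;>
        (try (rw [abs_eq (by norm_num)]; omega))
  · rintro ⟨r, i⟩ h1 h2
    simp only at h1 h2
    have : r = 0 := Fin.ext h1
    simp [dec, this, h2, ht]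


lemma encS_dec (s : Bool) (w : Fin N → L) : encS (dec s w) = s := by
  cases s <;> simp [encS, dec, ht, sg]

lemma encW_dec (s : Bool) (w : Fin N → L) : encW (dec s w) = w := by
  funext i
  have hs := sg_pm s w i.val
  have hx : wx w i.val = w i := by simp [wx]
  simp only [encW, dec, Fin.val_succ, Fin.val_castSucc, ht, sg, hx]
  rcases hw : w i with _ | _ | _
  · simp [lt]
  · simp [lt]
  · simp [lt]; omega

lemma dec_enc (h : Fin 2 × Fin (N + 1) → ℤ) (hh : IsHeight h) :
    dec (encS h) (encW h) = h := by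
  obtain ⟨ha, h0⟩ := hh
  have h00 : h (0, 0) = 0 := h0 _ rfl rfl
  have col : ∀ j : Fin (N + 1), h (1, j) - h (0, j) = 1 ∨ h (1, j) - h (0, j) = -1 := by
    intro j
    have := ha (1, j) (0, j) (Or.inr ⟨rfl, Or.inr rfl⟩)
    rwa [abs_eq (by norm_num)] at this
  have row : ∀ (r : Fin 2) (i : Fin N), h (r, i.succ) - h (r, i.castSucc) = 1 ∨
      h (r, i.succ) - h (r, i.castSucc) = -1 := by
    intro r i
    have := ha (r, i.succ) (r, i.castSucc) (Or.inl ⟨rfl, Or.inr (by simp)⟩)
    rwa [abs_eq (by norm_num)] at this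
  have key : ∀ i (hi : i < N + 1), ht (encS h) (encW h) i = h (0, ⟨i, hi⟩) ∧
      sg (encS h) (encW h) i = h (1, ⟨i, hi⟩) - h (0, ⟨i, hi⟩) := by
    intro i
    induction i with
    | zero =>
      intro hi
      refine ⟨?_, ?_⟩
      · simp only [ht]; exact h00.symm
      · have := col 0
        change sg (encS h) (encW h) 0 = h (1, 0) - h (0, 0)
        simp only [sg, encS]
        by_cases h1 : h (1, 0) = 1
        · simp [h1, h00]
        · simp [h1]
          omega
    | succ i ih =>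
      intro hi
      have hiN : i < N := by omega
      obtain ⟨e1, e2⟩ := ih (by omega)
      have hx : wx (encW h) i = encW h ⟨i, hiN⟩ := by simp [wx, hiN]
      have r0 := row 0 ⟨i, hiN⟩
      have r1 := row 1 ⟨i, hiN⟩
      have c0 := col ⟨i, by omega⟩
      have c1 := col ⟨i + 1, hi⟩
      have s1 : (⟨i, hiN⟩ : Fin N).succ = ⟨i + 1, hi⟩ := rfl
      have s2 : (⟨i, hiN⟩ : Fin N).castSucc = ⟨i, by omega⟩ := rfl
      rw [s1, s2] at r0 r1
      simp only [ht, sg, hx, e1, e2]
      have hE : encW h ⟨i, hiN⟩ = lt (h (0, ⟨i + 1, hi⟩) - h (0, ⟨i, by omega⟩))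
        (h (1, ⟨i + 1, hi⟩) - h (1, ⟨i, by omega⟩)) := rfl
      rw [hE]
      rcases r0 with r0 | r0 <;> rcases r1 with r1 | r1
      · rw [r0, r1]; simp [lt]; omega
      · rw [r0, r1]; simp [lt]; omega
      · rw [r0, r1]; simp [lt]; omega
      · rw [r0, r1]; simp [lt]; omega
  funext p
  obtain ⟨r, i⟩ := p
  obtain ⟨k1, k2⟩ := key i.val i.isLt
  simp only [dec, k1, k2]
  fin_cases r <;> simp

/-- Height functions on the `2 × (N+1)` grid are words with a sign. -/
def equivH : {h : Fin 2 × Fin (N + 1) → ℤ // IsHeight h} ≃ Bool × (Fin N → L) where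
  toFun h := (encS h.1, encW h.1)
  invFun x := ⟨dec x.1 x.2, isHeight_dec x.1 x.2⟩
  left_inv h := Subtype.ext (dec_enc h.1 h.2)
  right_inv x := by
    change (encS (dec x.1 x.2), encW (dec x.1 x.2)) = x
    rw [encS_dec, encW_dec]


lemma isMin_iff (h : Fin 2 × Fin (N + 1) → ℤ) (r : Fin 2) (i : Fin (N + 1)) :
    IsMin h (r, i) ↔ h (1 - r, i) = h (r, i) + 1 ∧
      (∀ j : Fin (N + 1), j.val + 1 = i.val → h (r, j) = h (r, i) + 1) ∧
      (∀ j : Fin (N + 1), i.val + 1 = j.val → h (r, j) = h (r, i) + 1) := by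
  constructor
  · intro hm
    refine ⟨hm _ (Or.inr ⟨rfl, ?_⟩), fun j hj => hm _ (Or.inl ⟨rfl, Or.inl hj⟩),
      fun j hj => hm _ (Or.inl ⟨rfl, Or.inr hj⟩)⟩
    fin_cases r <;> simp
  · rintro ⟨h1, h2, h3⟩ ⟨r', j⟩ hadj
    rcases hadj with ⟨e, hj⟩ | ⟨e, hr⟩
    · simp only at e hj
      subst e
      rcases hj with hj | hj
      · exact h2 j hj
      · exact h3 j hj
    · simp only at e hr
      subst e
      have : r' = 1 - r := by
        fin_cases r <;> fin_cases r' <;> simp at hr ⊢
      rw [this]; exact h1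

lemma isMax_iff (h : Fin 2 × Fin (N + 1) → ℤ) (r : Fin 2) (i : Fin (N + 1)) :
    IsMax h (r, i) ↔ h (1 - r, i) = h (r, i) - 1 ∧
      (∀ j : Fin (N + 1), j.val + 1 = i.val → h (r, j) = h (r, i) - 1) ∧
      (∀ j : Fin (N + 1), i.val + 1 = j.val → h (r, j) = h (r, i) - 1) := by
  constructor
  · intro hm
    refine ⟨hm _ (Or.inr ⟨rfl, ?_⟩), fun j hj => hm _ (Or.inl ⟨rfl, Or.inl hj⟩),
      fun j hj => hm _ (Or.inl ⟨rfl, Or.inr hj⟩)⟩
    fin_cases r <;> simp
  · rintro ⟨h1, h2, h3⟩ ⟨r', j⟩ hadj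
    rcases hadj with ⟨e, hj⟩ | ⟨e, hr⟩
    · simp only at e hj
      subst e
      rcases hj with hj | hj
      · exact h2 j hj
      · exact h3 j hj
    · simp only at e hr
      subst e
      have : r' = 1 - r := by
        fin_cases r <;> fin_cases r' <;> simp at hr ⊢
      rw [this]; exact h1

open Classical in
/-- number of extrema in column `i` -/
noncomputable def colE (h : Fin 2 × Fin (N + 1) → ℤ) (i : Fin (N + 1)) : ℕ :=
  (if IsMin h (0, i) ∨ IsMax h (0, i) then 1 else 0) +
  (if IsMin h (1, i) ∨ IsMax h (1, i) then 1 else 0)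

lemma numExt_eq (h : Fin 2 × Fin (N + 1) → ℤ) : numExt h = ∑ i, colE h i := by
  classical
  unfold numExt
  rw [Nat.card_eq_fintype_card, Fintype.card_subtype, Finset.card_filter,
    Fintype.sum_prod_type, Finset.sum_comm]
  apply Finset.sum_congr rfl
  intro i _
  rw [Fin.sum_univ_two]
  rfl

/-- letter before column `i` -/
def lft (x : Option L) (w : Fin N → L) : Fin (N + 1) → Option L := Fin.cons x (fun i => some (w i))

/-- letter after column `i` -/
def rgt (w : Fin N → L) (i : Fin (N + 1)) : Option L := if h : i.val < N then some (w ⟨i, h⟩) else none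

lemma sum_cm (x : Option L) (w : Fin N → L) : ∑ i, cm (lft x w i) (rgt w i) = st N x w := by
  induction N generalizing x with
  | zero => simp [lft, rgt, st]
  | succ N ih =>
    rw [Fin.sum_univ_succ, st, ← ih (some (w 0)) (fun i => w i.succ)]
    congr 1
    apply Finset.sum_congr rfl
    intro i _
    have h1 : lft x w i.succ = lft (some (w 0)) (fun i => w i.succ) i := by
      refine Fin.cases ?_ (fun j => ?_) i
      · simp [lft]
      · simp [lft]
    have h2 : rgt w i.succ = rgt (fun i => w i.succ) i := by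
      by_cases hi : i.val < N
      · simp [rgt, hi]
      · simp [rgt, hi]
    rw [h1, h2]

lemma ht_succ (s : Bool) (w : Fin N → L) (i : ℕ) (hi : i < N) :
    ht s w (i + 1) = match w ⟨i, hi⟩ with
      | U => ht s w i + 1
      | D => ht s w i - 1
      | L.F => ht s w i + sg s w i := by
  have : wx w i = w ⟨i, hi⟩ := by simp [wx, hi]
  simp only [ht, this]

lemma sg_succ (s : Bool) (w : Fin N → L) (i : ℕ) (hi : i < N) :
    sg s w (i + 1) = match w ⟨i, hi⟩ with
      | U => sg s w i
      | D => sg s w i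
      | L.F => - sg s w i := by
  have : wx w i = w ⟨i, hi⟩ := by simp [wx, hi]
  simp only [sg, this]

lemma colE_dec (s : Bool) (w : Fin N → L) (i : Fin (N + 1)) :
    colE (dec s w) i = cm (lft none w i) (rgt w i) := by
  classical
  have hs := sg_pm s w i.val
  -- incoming
  have hin : (i.val = 0 ∧ lft none w i = none) ∨ ∃ j : ℕ, ∃ hj : j < N, i.val = j + 1 ∧
      lft none w i = some (w ⟨j, hj⟩) := by
    refine Fin.cases ?_ (fun j => ?_) i
    · left; simp [lft]
    · right; exact ⟨j.val, j.isLt, by simp, by simp [lft]⟩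
  have hout : (i.val = N ∧ rgt w i = none) ∨ ∃ hj : i.val < N,
      rgt w i = some (w ⟨i.val, hj⟩) := by
    by_cases h : i.val < N
    · right; exact ⟨h, by simp [rgt, h]⟩
    · left; exact ⟨by omega, by simp [rgt, h]⟩
  have A : ∀ P : Fin (N + 1) → Prop, i.val = 0 →
      ((∀ j : Fin (N + 1), j.val + 1 = i.val → P j) ↔ True) := by
    intro P h0
    simp only [iff_true]
    intro j hj; omega
  have B : ∀ P : Fin (N + 1) → Prop, ∀ j0 : ℕ, ∀ hj : j0 < N, i.val = j0 + 1 →
      ((∀ j : Fin (N + 1), j.val + 1 = i.val → P j) ↔ P ⟨j0, by omega⟩) := by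
    intro P j0 hj0 h0
    constructor
    · intro h; exact h _ h0.symm
    · intro h j hj
      have : j = ⟨j0, by omega⟩ := Fin.ext (by simp; omega)
      rw [this]; exact h
  have C : ∀ P : Fin (N + 1) → Prop, i.val = N →
      ((∀ j : Fin (N + 1), i.val + 1 = j.val → P j) ↔ True) := by
    intro P h0
    simp only [iff_true]
    intro j hj; omega
  have D' : ∀ P : Fin (N + 1) → Prop, ∀ hj : i.val < N,
      ((∀ j : Fin (N + 1), i.val + 1 = j.val → P j) ↔ P ⟨i.val + 1, by omega⟩) := by
    intro P hj0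
    constructor
    · intro h; exact h _ rfl
    · intro h j hj
      have : j = ⟨i.val + 1, by omega⟩ := Fin.ext (by simp; omega)
      rw [this]; exact h
  unfold colE
  simp only [isMin_iff, isMax_iff]
  have z : (1 : Fin 2) - 0 = 1 := rfl
  have o : (1 : Fin 2) - 1 = 0 := rfl
  rw [z, o]
  rcases hin with ⟨hi, el⟩ | ⟨j0, hj0, hi, el⟩ <;> rcases hout with ⟨ho, er⟩ | ⟨ho, er⟩
  · simp only [A _ hi, C _ ho, el, er, dec, cm]
    simp
    split_ifs <;> omega
  · simp only [A _ hi, D' _ ho, el, er, dec]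
    have h1 := ht_succ s w i.val ho
    have h2 := sg_succ s w i.val ho
    rcases hw : w ⟨i.val, ho⟩ with _ | _ | _ <;> rw [hw] at h1 h2 <;> simp only at h1 h2 <;>
      simp [cm, h1, h2] <;> split_ifs <;> omega
  · simp only [B _ j0 hj0 hi, C _ ho, el, er, dec]
    have h1 := ht_succ s w j0 hj0
    have h2 := sg_succ s w j0 hj0
    have hs' := sg_pm s w j0
    rw [← hi] at h1 h2
    rcases hw : w ⟨j0, hj0⟩ with _ | _ | _ <;> rw [hw] at h1 h2 <;> simp only at h1 h2 <;>
      simp [cm, h1, h2] <;> split_ifs <;> omega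
  · simp only [B _ j0 hj0 hi, D' _ ho, el, er, dec]
    have h1 := ht_succ s w j0 hj0
    have h2 := sg_succ s w j0 hj0
    have h3 := ht_succ s w i.val ho
    have h4 := sg_succ s w i.val ho
    have hs' := sg_pm s w j0
    rw [← hi] at h1 h2
    rcases hw : w ⟨j0, hj0⟩ with _ | _ | _ <;> rw [hw] at h1 h2 <;> simp only at h1 h2 <;>
    rcases hw' : w ⟨i.val, ho⟩ with _ | _ | _ <;> rw [hw'] at h3 h4 <;> simp only at h3 h4 <;>
      simp [cm, h3, h4] <;> (try split_ifs) <;> omega

lemma numExt_dec (s : Bool) (w : Fin N → L) : numExt (dec s w) = st N none w := by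
  rw [numExt_eq, ← sum_cm]
  exact Finset.sum_congr rfl fun i _ => colE_dec s w i

lemma E_two (d : ℕ) : E d 2 (N + 1) = 2 * cnt N none d := by
  classical
  unfold E
  have e : {h : Fin 2 × Fin (N + 1) → ℤ // IsHeight h ∧ numExt h = d} ≃
      {x : Bool × (Fin N → L) // st N none x.2 = d} := by
    refine (Equiv.subtypeSubtypeEquivSubtypeInter IsHeight (fun h => numExt h = d)).symm.trans ?_
    refine equivH.subtypeEquiv ?_
    rintro ⟨h, hh⟩
    have : numExt h = st N none (encW h) := by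
      conv_lhs => rw [← dec_enc h hh]
      rw [numExt_dec]
    change numExt h = d ↔ st N none (encW h) = d
    rw [this]
  rw [Nat.card_congr e, Nat.card_eq_fintype_card, Fintype.card_subtype]
  have : (univ.filter fun x : Bool × (Fin N → L) => st N none x.2 = d) =
      (univ : Finset Bool) ×ˢ (univ.filter fun w : Fin N → L => st N none w = d) := by
    ext ⟨a, b⟩; simp
  rw [this, Finset.card_product]
  simp [cnt]

end

/-! ### The generating function for `d = 6`, `m = 2` -/

lemma E_small : E 6 2 2 = 0 ∧ E 6 2 3 = 2 := by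
  have h2 : E 6 2 2 = 2 * cnt 1 none 6 := E_two (N := 1) 6
  have h3 : E 6 2 3 = 2 * cnt 2 none 6 := E_two (N := 2) 6
  rw [h2, h3, cnt_none, cnt_none]
  have e1 : (1 : ℕ) = 0 + 1 := rfl
  have e2 : (2 : ℕ) = 0 + 1 + 1 := rfl
  constructor
  · have : cnt (0 + 1) (some L.F) (4 + 2) = 0 := by
      rw [F_succ]; simp [cnt_zero, cm]
    simpa using this
  · have : cnt (0 + 1 + 1) (some L.F) (4 + 2) = 1 := by
      rw [F_succ]
      have h5 : cnt (0 + 1) (some U) (4 + 1) = 0 := by
        rw [U_succ]; simp [cnt_zero, cm]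
      have h4 : cnt (0 + 1) (some L.F) (2 + 2) = 1 := by
        rw [F_succ]; simp [cnt_zero, cm]
      rw [h5, h4]
    simpa using this

lemma E_big (M : ℕ) : (E 6 2 (M + 4) : ℚ) = 2 * (6 + 47 / 6 * M + 71 / 12 * M ^ 2 +
    13 / 6 * M ^ 3 + 1 / 12 * M ^ 4) := by
  have h : E 6 2 (M + 4) = 2 * cnt (M + 3) none 6 := E_two (N := M + 3) 6
  rw [h, cnt_none]
  push_cast
  rw [(closed M).2.2.2.2.2.2.2.2.2.2.2]

/-- the polynomial part -/
noncomputable def Q0 : Polynomial ℚ :=
  Polynomial.C 96 + Polynomial.C 32 * Polynomial.X + Polynomial.C 4 * Polynomial.X ^ 2 -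
    Polynomial.C 2 * Polynomial.X ^ 3

/-- the principal part -/
def c0 : ℕ → ℚ
  | 5 => 4
  | 3 => -60
  | 2 => 168
  | 1 => -208
  | _ => 0

lemma ch3 (n : ℕ) : ((n + 3).choose 3 : ℚ) = (n + 3) * (n + 2) * (n + 1) / 6 := by
  induction n with
  | zero => norm_num [Nat.choose]
  | succ n ih =>
    have h := Nat.choose_succ_succ (n + 3) 2
    have h2 := Nat.cast_choose_two ℚ (n + 3)
    rw [show n + 1 + 3 = (n + 3).succ by rfl, show (3 : ℕ) = Nat.succ 2 by rfl, h]
    push_cast
    push_cast at h2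
    rw [h2, ih]; ring

lemma ch4 (n : ℕ) : ((n + 4).choose 4 : ℚ) = (n + 4) * (n + 3) * (n + 2) * (n + 1) / 24 := by
  induction n with
  | zero => norm_num [Nat.choose]
  | succ n ih =>
    have h := Nat.choose_succ_succ (n + 4) 3
    have h3 := ch3 (n + 1)
    rw [show n + 1 + 4 = (n + 4).succ by rfl, show (4 : ℕ) = Nat.succ 3 by rfl, h]
    push_cast
    push_cast at h3
    rw [show n + 1 + 3 = n + 4 by ring] at h3
    rw [h3, ih]; ring

/-- the power series `1 / (1 - X)^(k+1)` -/
noncomputable def iv (k : ℕ) : PowerSeries ℚ := PowerSeries.mk fun n => ((n + k).choose k : ℚ)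

lemma iv_zero : iv 0 * (1 - PowerSeries.X) = 1 := by
  ext n
  rcases n with _ | n
  · simp [iv, mul_sub]
  · rw [mul_sub, mul_one, map_sub, PowerSeries.coeff_succ_mul_X]
    simp [iv, PowerSeries.coeff_one]

lemma iv_succ (k : ℕ) : iv (k + 1) * (1 - PowerSeries.X) = iv k := by
  ext n
  rcases n with _ | n
  · simp [iv, mul_sub]
  · rw [mul_sub, mul_one, map_sub, PowerSeries.coeff_succ_mul_X]
    simp only [iv, PowerSeries.coeff_mk]
    have := Nat.choose_succ_succ (n + k + 1) k
    rw [show n + 1 + (k + 1) = (n + k + 1).succ by omega, show k + 1 = k.succ by rfl, this,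
      show n + k.succ = n + k + 1 by omega, show n + 1 + k = n + k + 1 by omega]
    push_cast
    ring

lemma F_eq : F 6 2 = PowerSeries.C 4 * iv 4 - PowerSeries.C 60 * iv 2 +
    PowerSeries.C 168 * iv 1 - PowerSeries.C 208 * iv 0 + (Q0 : PowerSeries ℚ) := by
  ext n
  rw [F, PowerSeries.coeff_mk]
  simp only [map_add, map_sub, PowerSeries.coeff_C_mul, iv, PowerSeries.coeff_mk,
    Polynomial.coeff_coe]
  have hQ : ∀ k, 4 ≤ k → Q0.coeff k = 0 := by
    intro k hk
    have h1 : Q0.natDegree ≤ 3 := by unfold Q0; compute_degree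
    exact Polynomial.coeff_eq_zero_of_natDegree_lt (by omega)
  obtain ⟨e2, e3⟩ := E_small
  rcases n with _ | _ | _ | _ | n
  · simp [Q0, Nat.choose]; norm_num
  · simp [Q0, Nat.choose, Polynomial.coeff_X_pow, Polynomial.coeff_C]; norm_num
  · simp [Q0, Nat.choose, Polynomial.coeff_X_pow, e2]; norm_num
  · simp [Q0, Nat.choose, Polynomial.coeff_X_pow, e3]; norm_num
  · rw [if_pos (by omega), hQ _ (by omega)]
    have h4 := ch4 (n + 4)
    have h2 := Nat.cast_choose_two ℚ (n + 4 + 2)
    push_cast at h4 h2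
    rw [show n + 1 + 1 + 1 + 1 = n + 4 by ring, E_big n, h4, h2]
    simp only [Nat.choose_one_right, Nat.choose_zero_right]
    push_cast
    ring

lemma F_mul : F 6 2 * (1 - PowerSeries.X) ^ 5 =
    ((Polynomial.C 4 - Polynomial.C 60 * (1 - Polynomial.X) ^ 2 +
      Polynomial.C 168 * (1 - Polynomial.X) ^ 3 - Polynomial.C 208 * (1 - Polynomial.X) ^ 4 +
      (1 - Polynomial.X) ^ 5 * Q0 : Polynomial ℚ) : PowerSeries ℚ) := by
  have i0 := iv_zero
  have i1 := iv_succ 0
  have i2 := iv_succ 1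
  have i3 := iv_succ 2
  have i4 := iv_succ 3
  rw [zero_add] at i1
  norm_num at i2 i3 i4
  rw [F_eq]
  push_cast
  have e4 : iv 4 * (1 - PowerSeries.X) ^ 5 = 1 := by
    rw [show iv 4 * (1 - PowerSeries.X) ^ 5 = ((((iv 4 * (1 - PowerSeries.X)) *
      (1 - PowerSeries.X)) * (1 - PowerSeries.X)) * (1 - PowerSeries.X)) * (1 - PowerSeries.X)
      by ring, i4, i3, i2, i1, i0]
  have e2 : iv 2 * (1 - PowerSeries.X) ^ 5 = (1 - PowerSeries.X) ^ 2 := by
    rw [show iv 2 * (1 - PowerSeries.X) ^ 5 = (((iv 2 * (1 - PowerSeries.X)) *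
      (1 - PowerSeries.X)) * (1 - PowerSeries.X)) * (1 - PowerSeries.X) ^ 2
      by ring, i2, i1, i0, one_mul]
  have e1 : iv 1 * (1 - PowerSeries.X) ^ 5 = (1 - PowerSeries.X) ^ 3 := by
    rw [show iv 1 * (1 - PowerSeries.X) ^ 5 = ((iv 1 * (1 - PowerSeries.X)) *
      (1 - PowerSeries.X)) * (1 - PowerSeries.X) ^ 3
      by ring, i1, i0, one_mul]
  have e0 : iv 0 * (1 - PowerSeries.X) ^ 5 = (1 - PowerSeries.X) ^ 4 := by
    rw [show iv 0 * (1 - PowerSeries.X) ^ 5 = (iv 0 * (1 - PowerSeries.X)) *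
      (1 - PowerSeries.X) ^ 4
      by ring, i0, one_mul]
  linear_combination PowerSeries.C 4 * e4 - PowerSeries.C 60 * e2 + PowerSeries.C 168 * e1 -
    PowerSeries.C 208 * e0

/-- **The statement of Q1 fails for `d = 6`, `m = 2`.** The series `F_{6,2}` has a principal part at
`z = 1`; in every such representation the coefficient of `(1-z)^(-5)` is `4` and the coefficient
`c₂(2)` of `(1-z)^(-4)` is `0`, not `-4 (6 - 4) = -8`. -/
theorem result :
    ((∃ c Q, IsPrincipalPart 6 2 c Q) ∧
      ∀ c Q, IsPrincipalPart 6 2 c Q → c (6 - 1) = 4 ∧ c (6 - 2) = 0) ∧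
    ¬ ∀ d m : ℕ, 5 ≤ d → 2 ≤ m → ∀ c Q, IsPrincipalPart d m c Q →
      c (d - 2) = -4 * ((d : ℚ) - 4) := by
  have hex : IsPrincipalPart 6 2 c0 Q0 := by
    unfold IsPrincipalPart
    rw [show (6 : ℕ) - 1 = 5 by rfl, F_mul]
    congr 1
    have : Icc 1 5 = ({1, 2, 3, 4, 5} : Finset ℕ) := by decide
    rw [this]
    simp [c0]
    ring
  have hval : ∀ c Q, IsPrincipalPart 6 2 c Q → c (6 - 1) = 4 ∧ c (6 - 2) = 0 := by
    intro c Q h
    unfold IsPrincipalPart at h
    rw [show (6 : ℕ) - 1 = 5 by rfl, F_mul, Polynomial.coe_inj] at h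
    have hI : Icc 1 5 = ({1, 2, 3, 4, 5} : Finset ℕ) := by decide
    rw [hI] at h
    have he := congrArg (fun p => p.eval 1) h
    have hd := congrArg (fun p => (Polynomial.derivative p).eval 1) h
    simp at he
    simp [Polynomial.derivative_pow] at hd
    exact ⟨he.symm, hd⟩
  refine ⟨⟨⟨c0, Q0, hex⟩, hval⟩, ?_⟩
  intro h
  have h1 := h 6 2 (by norm_num) le_rfl c0 Q0 hex
  rw [(hval c0 Q0 hex).2] at h1
  norm_num at h1

end Pool.Agent.Results.MP_562107_co.NarrowGrid
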